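import Mathlib
import Pool.Agent.Q184.SK.Iter
import Pool.Agent.Q184.Osg

/-!
Every superattracting skew germ `(z^d, w^c + z h (z, w))` is analytically conjugate to an analytic
normal form.
-/

set_option autoImplicit false

open Set Metric Filter Topology

namespace Pool.Agent.Results.MP_8db26a_an.AnalyticNormalForm

open Pool.Agent.Q184.SK

/-- `f` is (near the origin of `ℂ²`) a germ of the shape `(z^d, w^c + z h (z, w))` with `h` holomorphic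
near `0` and `h (0, 0) = 0`. -/
def IsSkewGerm (c d : ℕ) (f : ℂ × ℂ → ℂ × ℂ) : Prop :=
  ∃ h : ℂ × ℂ → ℂ, AnalyticAt ℂ h 0 ∧ h 0 = 0 ∧
    ∀ᶠ p in 𝓝 (0 : ℂ × ℂ), f p = (p.1 ^ d, p.2 ^ c + p.1 * h p)

/-- `N` is (near the origin) an analytic normal form
`(z^d, w^c + h_{c-1} (z) w^{c-1} + ... + h_1 (z) w + h_0 (z))` with convergent power series `h_j`
vanishing at `0`. -/
def IsAnalyticNormalForm (c d : ℕ) (N : ℂ × ℂ → ℂ × ℂ) : Prop :=
  ∃ H : Fin c → ℂ → ℂ, (∀ j, AnalyticAt ℂ (H j) 0 ∧ H j 0 = 0) ∧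
    ∀ᶠ p in 𝓝 (0 : ℂ × ℂ), N p = (p.1 ^ d, p.2 ^ c + ∑ j : Fin c, H j p.1 * p.2 ^ (j : ℕ))

/-- `Φ` is a germ of biholomorphism of `(ℂ², 0)`. -/
def IsBiholGerm (Φ : ℂ × ℂ → ℂ × ℂ) : Prop :=
  AnalyticAt ℂ Φ 0 ∧ Φ 0 = 0 ∧ ∃ Ψ : ℂ × ℂ → ℂ × ℂ, AnalyticAt ℂ Ψ 0 ∧ Ψ 0 = 0 ∧
    (∀ᶠ p in 𝓝 (0 : ℂ × ℂ), Ψ (Φ p) = p) ∧ ∀ᶠ p in 𝓝 (0 : ℂ × ℂ), Φ (Ψ p) = p

/-- `f` and `g` are analytically conjugate at the origin. -/
def AnalyticallyConjugate (f g : ℂ × ℂ → ℂ × ℂ) : Prop :=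
  ∃ Φ : ℂ × ℂ → ℂ × ℂ, IsBiholGerm Φ ∧ ∀ᶠ p in 𝓝 (0 : ℂ × ℂ), Φ (f p) = g (Φ p)

/-- complex differentiable functions of two variables are analytic -/
theorem analyticAt_two {g : ℂ × ℂ → ℂ} (hg : ∀ᶠ p in 𝓝 (0 : ℂ × ℂ), DifferentiableAt ℂ g p) :
    AnalyticAt ℂ g 0 := by
  let e : (Fin 2 → ℂ) ≃L[ℂ] ℂ × ℂ := ContinuousLinearEquiv.finTwoArrow ℂ ℂ
  have h0 : ∀ᶠ z in 𝓝 (0 : Fin 2 → ℂ), DifferentiableAt ℂ (fun z => g (e z)) z := by
    have h1 : Tendsto e (𝓝 0) (𝓝 0) := by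
      have := e.continuous.tendsto 0
      rwa [map_zero] at this
    filter_upwards [h1.eventually hg] with z hz
    exact hz.comp z e.differentiableAt
  obtain ⟨R, hR, hball⟩ := Metric.eventually_nhds_iff_ball.mp h0
  have h2 : AnalyticAt ℂ (fun z => g (e z)) 0 := by
    refine Pool.Agent.Q184.Osg.analyticAt_of_differentiable 2 0 (R / 2) (by positivity) _ ?_
    intro z hz
    apply hball
    rw [mem_ball_zero_iff]
    have h3 : ‖z‖ ≤ R / 2 := by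
      rw [pi_norm_le_iff_of_nonneg (by positivity)]
      intro i
      simpa using hz i
    linarith
  have h4 : AnalyticAt ℂ (fun p : ℂ × ℂ => g (e (e.symm p))) 0 := by
    have h5 : AnalyticAt ℂ (fun z => g (e z)) (e.symm 0) := by rwa [map_zero]
    exact h5.comp (e.symm.toContinuousLinearMap.analyticAt 0)
  simpa using h4

theorem UU_nhds {ε ρ : ℝ} (hε : 0 < ε) (hρ : 0 < ρ) : UU ε ρ ∈ 𝓝 (0 : ℂ × ℂ) :=
  (UU_open ε ρ).mem_nhds (mem_UU.mpr ⟨by simpa using hε, by simpa using hρ⟩)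

/-- choice of the parameters -/
theorem exists_par {c d : ℕ} (hc : 2 ≤ c) (hd : 2 ≤ d) {h : ℂ × ℂ → ℂ} (hh : AnalyticAt ℂ h 0) :
    ∃ ε ρ H : ℝ, Par c d h ε ρ H ∧
      ∃ k : ℂ × ℂ → ℂ, Good ε ρ H k ∧ ∀ p ∈ UU ε ρ, Gam c d h k p = k p := by
  have hev : ∀ᶠ p in 𝓝 (0 : ℂ × ℂ), DifferentiableAt ℂ h p ∧ ‖h p‖ ≤ ‖h 0‖ + 1 := by
    apply Filter.Eventually.and
    · filter_upwards [hh.eventually_analyticAt] with p hp
      exact hp.differentiableAt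
    · have h1 : Tendsto (fun p => ‖h p‖) (𝓝 0) (𝓝 ‖h 0‖) := hh.continuousAt.norm
      filter_upwards [h1.eventually (gt_mem_nhds (lt_add_one ‖h 0‖))] with p hp
      exact hp.le
  obtain ⟨r, hr, hball⟩ := Metric.eventually_nhds_iff_ball.mp hev
  set H : ℝ := ‖h 0‖ + 1 with hHdef
  have hH : 0 ≤ H := by positivity
  set ρ : ℝ := min (r / 2) (1 / 2) with hρdef
  have hρ : 0 < ρ := by positivity
  have hρ1 : ρ ≤ 1 / 2 := min_le_right _ _
  have hρr : ρ < r := lt_of_le_of_lt (min_le_left _ _) (by linarith)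
  obtain ⟨L, hL0, hL1, hL2⟩ := Psi_bound c d (max 1 ((2 / ρ) ^ c * (H + 1)))
  set A : ℝ := L * (2 / ρ) ^ c with hA
  have hA0 : 0 ≤ A := by positivity
  set ε : ℝ := min (min (r / 2) 1) (min (ρ / (2 * (H + 1))) (1 / (2 * (A + 1)))) with hεdef
  have hε : 0 < ε := by positivity
  have hε1 : ε ≤ 1 := (min_le_left _ _).trans (min_le_right _ _)
  have hεr : ε < r := lt_of_le_of_lt ((min_le_left _ _).trans (min_le_left _ _)) (by linarith)
  have hε2 : ε ≤ ρ / (2 * (H + 1)) := (min_le_right _ _).trans (min_le_left _ _)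
  have hε3 : ε ≤ 1 / (2 * (A + 1)) := (min_le_right _ _).trans (min_le_right _ _)
  have hsub : ∀ p ∈ UU ε ρ, p ∈ ball (0 : ℂ × ℂ) r := by
    intro p hp
    obtain ⟨h1, h2⟩ := mem_UU.mp hp
    rw [mem_ball_zero_iff, Prod.norm_def]
    exact max_lt (h1.trans hεr) (h2.trans hρr)
  have hP : Par c d h ε ρ H := by
    refine ⟨hc, hd, hε, hε1, hρ, hρ1, hH, ?_, ?_, ?_⟩
    · intro p hp
      exact (hball p (hsub p hp)).1.differentiableWithinAt
    · intro p hp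
      exact (hball p (hsub p hp)).2
    · rw [le_div_iff₀ (by positivity)] at hε2
      nlinarith
  refine ⟨ε, ρ, H, hP, hP.fixed hL0 hL1 hL2 ?_⟩
  rw [le_div_iff₀ (by positivity)] at hε3
  rw [← hA]
  nlinarith

/-- For all `d > c ≥ 2`, every germ `f (z, w) = (z^d, w^c + z h (z, w))` with `h` holomorphic near `0`
and `h (0, 0) = 0` is analytically conjugate to an analytic normal form. -/
theorem result (c d : ℕ) (hc : 2 ≤ c) (hcd : c < d) (f : ℂ × ℂ → ℂ × ℂ) (hf : IsSkewGerm c d f) :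
    ∃ N : ℂ × ℂ → ℂ × ℂ, IsAnalyticNormalForm c d N ∧ AnalyticallyConjugate f N := by
  obtain ⟨h, hh, hh0, hfh⟩ := hf
  obtain ⟨ε, ρ, H, P, k, hk, hfix⟩ := exists_par hc (by omega : 2 ≤ d) hh
  have hU : UU ε ρ ∈ 𝓝 (0 : ℂ × ℂ) := UU_nhds P.hε P.hρ
  have hut := (P.ut_good hk).1
  have hut0 : ∀ᶠ p in 𝓝 (0 : ℂ × ℂ), DifferentiableAt ℂ (ut c k) p := by
    filter_upwards [(UU_open ε ρ).mem_nhds (mem_of_mem_nhds hU)] with p hp
    exact hut.differentiableAt ((UU_open ε ρ).mem_nhds hp)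
  have huta : AnalyticAt ℂ (ut c k) 0 := analyticAt_two hut0
  -- the coefficients
  let Hc : Fin c → ℂ → ℂ := fun j z => if (j : ℕ) < c - 1 then z * TT k j (z, 0) else 0
  let N : ℂ × ℂ → ℂ × ℂ := fun p => (p.1 ^ d, p.2 ^ c + ∑ j : Fin c, Hc j p.1 * p.2 ^ (j : ℕ))
  let Φ : ℂ × ℂ → ℂ × ℂ := fun p => (p.1, p.2 + p.1 * ut c k p)
  have hHc : ∀ j, AnalyticAt ℂ (Hc j) 0 ∧ Hc j 0 = 0 := by
    intro j
    by_cases hj : (j : ℕ) < c - 1
    · simp only [Hc, hj, if_true]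
      constructor
      · have h1 : DifferentiableOn ℂ (fun z => TT k j (z, 0)) (ball 0 ε) := by
          refine (TT_prop P.hρ hk.1 hk.2 j).1.comp (f := fun z : ℂ => (z, (0 : ℂ))) ?_ ?_
          · exact differentiableOn_id.prodMk (differentiableOn_const _)
          · intro z hz
            rw [mem_ball_zero_iff] at hz
            exact mem_UU.mpr ⟨hz, by
              show ‖(0 : ℂ)‖ < ρ
              rw [norm_zero]; exact P.hρ⟩
        have h2 : AnalyticAt ℂ (fun z => TT k j (z, 0)) 0 :=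
          h1.analyticAt (isOpen_ball.mem_nhds (mem_ball_self P.hε))
        exact analyticAt_id.mul h2
      · simp
    · simp only [Hc, hj, if_false]
      exact ⟨analyticAt_const, trivial⟩
  refine ⟨N, ⟨Hc, hHc, Eventually.of_forall fun p => rfl⟩, Φ, ?_, ?_⟩
  · -- the germ of biholomorphism
    have hΦa : AnalyticAt ℂ Φ 0 :=
      analyticAt_fst.prod (analyticAt_snd.add (analyticAt_fst.mul huta))
    have hΦ0 : Φ 0 = 0 := by
      simp [Φ]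
    let u0 : ℂ := ut c k 0
    let Lf : ℂ × ℂ →L[ℂ] ℂ × ℂ :=
      (ContinuousLinearMap.fst ℂ ℂ ℂ).prod
        (ContinuousLinearMap.snd ℂ ℂ ℂ + u0 • ContinuousLinearMap.fst ℂ ℂ ℂ)
    let Lb : ℂ × ℂ →L[ℂ] ℂ × ℂ :=
      (ContinuousLinearMap.fst ℂ ℂ ℂ).prod
        (ContinuousLinearMap.snd ℂ ℂ ℂ - u0 • ContinuousLinearMap.fst ℂ ℂ ℂ)
    let e : (ℂ × ℂ) ≃L[ℂ] ℂ × ℂ := ContinuousLinearEquiv.equivOfInverse Lf Lb
      (fun p => by ext <;> simp [Lf, Lb]) (fun p => by ext <;> simp [Lf, Lb])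
    have hder : HasFDerivAt Φ (e : ℂ × ℂ →L[ℂ] ℂ × ℂ) 0 := by
      have h1 : HasFDerivAt (fun p : ℂ × ℂ => p.1 * ut c k p)
          ((0 : ℂ × ℂ).1 • fderiv ℂ (ut c k) 0 + ut c k 0 • ContinuousLinearMap.fst ℂ ℂ ℂ) 0 :=
        hasFDerivAt_fst.mul huta.differentiableAt.hasFDerivAt
      have h2 : HasFDerivAt Φ ((ContinuousLinearMap.fst ℂ ℂ ℂ).prod
          (ContinuousLinearMap.snd ℂ ℂ ℂ +
            ((0 : ℂ × ℂ).1 • fderiv ℂ (ut c k) 0 + ut c k 0 • ContinuousLinearMap.fst ℂ ℂ ℂ))) 0 :=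
        hasFDerivAt_fst.prodMk (hasFDerivAt_snd.add h1)
      refine h2.congr_fderiv ?_
      ext <;> simp [e, Lf, u0]
    have hcd' : ContDiffAt ℂ ⊤ Φ 0 := hΦa.contDiffAt
    have hstrict : HasStrictFDerivAt Φ (e : ℂ × ℂ →L[ℂ] ℂ × ℂ) 0 :=
      hcd'.hasStrictFDerivAt' hder (by simp)
    refine ⟨hΦa, hΦ0, hcd'.localInverse hder (by simp), ?_, ?_, ?_, ?_⟩
    · have h3 := hcd'.to_localInverse hder (by simp)
      rw [hΦ0] at h3
      exact h3.analyticAt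
    · have h3 := hcd'.localInverse_apply_image hder (by simp)
      rwa [hΦ0] at h3
    · exact hstrict.eventually_left_inverse
    · have h3 := hstrict.eventually_right_inverse
      rwa [hΦ0] at h3
  · filter_upwards [hfh, hU] with p hp hpU
    rw [hp]
    have h1 := P.conj hfix hpU
    show (p.1 ^ d, (p.2 ^ c + p.1 * h p) + p.1 ^ d * ut c k (p.1 ^ d, p.2 ^ c + p.1 * h p)) =
      (p.1 ^ d, (p.2 + p.1 * ut c k p) ^ c + ∑ j : Fin c, Hc j p.1 *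
        (p.2 + p.1 * ut c k p) ^ (j : ℕ))
    have h2 : ∑ j : Fin c, Hc j p.1 * (p.2 + p.1 * ut c k p) ^ (j : ℕ) =
        ∑ j : Fin (c - 1), (p.1 * TT k j (p.1, 0)) * (p.2 + p.1 * ut c k p) ^ (j : ℕ) := by
      rw [Fin.sum_univ_eq_sum_range (fun j => (p.1 * TT k j (p.1, 0)) *
        (p.2 + p.1 * ut c k p) ^ j) (c - 1)]
      rw [show (∑ j : Fin c, Hc j p.1 * (p.2 + p.1 * ut c k p) ^ (j : ℕ)) =
        ∑ j ∈ Finset.range c, (if j < c - 1 then p.1 * TT k j (p.1, 0) else 0) *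
          (p.2 + p.1 * ut c k p) ^ j from
        Fin.sum_univ_eq_sum_range (fun j => (if j < c - 1 then p.1 * TT k j (p.1, 0) else 0) *
          (p.2 + p.1 * ut c k p) ^ j) c]
      obtain ⟨m, rfl⟩ : ∃ m, c = m + 1 := ⟨c - 1, by omega⟩
      rw [Finset.sum_range_succ]
      simp only [Nat.add_sub_cancel, lt_irrefl, if_false, zero_mul, add_zero]
      apply Finset.sum_congr rfl
      intro j hj
      rw [Finset.mem_range] at hj
      rw [if_pos hj]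
    rw [h2]
    ext
    · rfl
    · exact h1

end Pool.Agent.Results.MP_8db26a_an.AnalyticNormalForm
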